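import Mathlib

/-!
The graph `G Y` of a triangle-free graph `Y`: its vertices are the edges of `Y` together with a
labelling of their two ends by `false`, `true`; two of them are adjacent when some vertex of `Y` is
labelled by both, in different ways.
-/

set_option autoImplicit false

namespace Pool.Agent.W2helper87.CIS

variable {W : Type}

/-- every vertex of `Y` is replaced by two twins -/
def B (Y : SimpleGraph W) : SimpleGraph (W × Bool) where
  Adj x y := Y.Adj x.1 y.1
  symm := ⟨fun _ _ h => h.symm⟩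
  loopless := ⟨fun _ h => Y.loopless.irrefl _ h⟩

lemma eq_of_mem {Y : SimpleGraph W} (p : (B Y).edgeSet) {x y : W × Bool} (hx : x ∈ p.1)
    (hy : y ∈ p.1) (h : x.1 = y.1) : x = y := by
  by_contra hne
  have hp := (Sym2.mem_and_mem_iff hne).1 ⟨hx, hy⟩
  have h2 := p.2
  rw [hp, SimpleGraph.mem_edgeSet] at h2
  exact Y.ne_of_adj h2 h

/-- the graph on the labelled edges -/
def G (Y : SimpleGraph W) : SimpleGraph (B Y).edgeSet where
  Adj p q := ∃ x : W × Bool, x ∈ p.1 ∧ (x.1, !x.2) ∈ q.1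
  symm := ⟨fun p q ⟨x, h1, h2⟩ => ⟨(x.1, !x.2), h2, by simpa using h1⟩⟩
  loopless := ⟨fun p ⟨x, h1, h2⟩ => by
    have := eq_of_mem p h1 h2 rfl
    have h3 := congrArg Prod.snd this
    simp at h3⟩

lemma G_adj {Y : SimpleGraph W} (p q : (B Y).edgeSet) :
    (G Y).Adj p q ↔ ∃ x : W × Bool, x ∈ p.1 ∧ (x.1, !x.2) ∈ q.1 := Iff.rfl

/-! ### Vertex-transitivity -/

/-- an automorphism of `B Y` from one of `Y` and a set of flips -/
def th {Y : SimpleGraph W} (σ : Y ≃g Y) (f : W → Bool) : B Y ≃g B Y where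
  toFun x := (σ x.1, xor x.2 (f x.1))
  invFun x := (σ.symm x.1, xor x.2 (f (σ.symm x.1)))
  left_inv x := by simp
  right_inv x := by simp
  map_rel_iff' := by
    intro a b
    show Y.Adj (σ a.1) (σ b.1) ↔ Y.Adj a.1 b.1
    exact σ.map_adj_iff

lemma mem_map_iff {Y : SimpleGraph W} (θ : B Y ≃g B Y) (p : (B Y).edgeSet) (x : W × Bool) :
    θ x ∈ (θ.mapEdgeSet p).1 ↔ x ∈ p.1 := by
  show θ x ∈ Sym2.map θ p.1 ↔ _
  rw [Sym2.mem_map]
  constructor
  · rintro ⟨a, ha, h⟩
    rwa [← θ.injective h]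
  · intro h
    exact ⟨x, h, rfl⟩

/-- the induced automorphism of `G Y` -/
def au {Y : SimpleGraph W} (σ : Y ≃g Y) (f : W → Bool) : G Y ≃g G Y where
  toEquiv := (th σ f).mapEdgeSet
  map_rel_iff' := by
    intro p q
    rw [G_adj, G_adj]
    constructor
    · rintro ⟨x, h1, h2⟩
      obtain ⟨y, rfl⟩ := (th σ f).surjective x
      rw [mem_map_iff] at h1
      refine ⟨y, h1, ?_⟩
      rw [← mem_map_iff (th σ f)]
      convert h2 using 1
      simp [th]
    · rintro ⟨y, h1, h2⟩
      refine ⟨th σ f y, (mem_map_iff _ _ _).2 h1, ?_⟩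
      rw [← mem_map_iff (th σ f)] at h2
      convert h2 using 1
      simp [th]

theorem transitive (Y : SimpleGraph W)
    (hY : ∀ a b c d, Y.Adj a b → Y.Adj c d → ∃ σ : Y ≃g Y, σ a = c ∧ σ b = d)
    (p q : (B Y).edgeSet) : ∃ φ : G Y ≃g G Y, φ p = q := by
  classical
  obtain ⟨p, hp⟩ := p
  obtain ⟨q, hq⟩ := q
  induction p with | h a b => ?_
  induction q with | h c d => ?_
  rw [SimpleGraph.mem_edgeSet] at hp hq
  obtain ⟨σ, h1, h2⟩ := hY a.1 b.1 c.1 d.1 hp hq
  have hne : b.1 ≠ a.1 := fun h => (Y.ne_of_adj (show Y.Adj a.1 b.1 from hp)) h.symm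
  refine ⟨au σ (fun w => if w = a.1 then xor a.2 c.2 else xor b.2 d.2), ?_⟩
  apply Subtype.ext
  show Sym2.map (th σ _) s(a, b) = s(c, d)
  have e1 : th σ (fun w => if w = a.1 then xor a.2 c.2 else xor b.2 d.2) a = c := by
    refine Prod.ext h1 ?_
    simp [th]
  have e2 : th σ (fun w => if w = a.1 then xor a.2 c.2 else xor b.2 d.2) b = d := by
    refine Prod.ext h2 ?_
    simp [th, hne]
  rw [Sym2.map_mk, e1, e2]

/-! ### Stable sets and cliques -/

/-- a maximal stable set consists of all labelled edges which agree with some labelling of `W` -/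
theorem stable_iff {Y : SimpleGraph W} {S : Set (B Y).edgeSet} (hS : Maximal (G Y).IsIndepSet S) :
    ∃ x : W → Bool, ∀ p : (B Y).edgeSet, p ∈ S ↔ ∀ y ∈ p.1, y.2 = x y.1 := by
  classical
  have hst : ∀ p ∈ S, ∀ q ∈ S, ¬ (G Y).Adj p q := by
    intro p hp q hq h
    exact hS.prop hp hq h.ne h
  let x : W → Bool := fun w => decide (∃ p ∈ S, (w, true) ∈ p.1)
  have hx : ∀ p ∈ S, ∀ y ∈ p.1, y.2 = x y.1 := by
    intro p hp y hy
    by_cases h : y.2 = true
    · rw [h]
      symm
      simp only [x, decide_eq_true_eq]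
      exact ⟨p, hp, by rw [← h]; exact hy⟩
    · rw [Bool.not_eq_true] at h
      rw [h]
      symm
      simp only [x, decide_eq_false_iff_not]
      rintro ⟨q, hq, hq2⟩
      exact hst p hp q hq ⟨y, hy, by rw [h]; exact hq2⟩
  refine ⟨x, fun p => ⟨hx p, fun hp => ?_⟩⟩
  by_contra hpS
  refine hpS (hS.2 (y := insert p S) ?_ (Set.subset_insert p S) (Set.mem_insert p S))
  have key : ∀ q ∈ S, ¬ (G Y).Adj p q := by
    rintro q hq ⟨y, hy1, hy2⟩
    have h1 := hp y hy1
    have h2 := hx q hq _ hy2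
    simp only at h2
    rw [← h1] at h2
    simp at h2
  intro a ha b hb hab hadj
  rcases Set.mem_insert_iff.1 ha with ha | ha
  · rcases Set.mem_insert_iff.1 hb with hb | hb
    · exact hab (ha.trans hb.symm)
    · exact key b hb (ha ▸ hadj)
  · rcases Set.mem_insert_iff.1 hb with hb | hb
    · exact key a ha (hb ▸ hadj.symm)
    · exact hst a ha b hb hadj

/-- two members of a clique on different edges determine the clique up to four vertices -/
theorem clique_struct {Y : SimpleGraph W} (hY : ∀ a b c, Y.Adj a b → Y.Adj a c → ¬ Y.Adj b c)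
    {C : Set (B Y).edgeSet} (hC : (G Y).IsClique C) {u v w : W} {i j k : Bool}
    (huv : Y.Adj u v) (huw : Y.Adj u w) (hvw : v ≠ w)
    (h1 : (⟨s((u, i), (v, j)), huv⟩ : (B Y).edgeSet) ∈ C)
    (h2 : (⟨s((u, !i), (w, k)), huw⟩ : (B Y).edgeSet) ∈ C)
    (y : (B Y).edgeSet) (hy : y ∈ C) :
    (∃ m, y.1 = s((u, i), (v, m))) ∨ (∃ m, y.1 = s((u, !i), (w, m))) := by
  by_cases e1 : y = ⟨s((u, i), (v, j)), huv⟩
  · left; exact ⟨j, by rw [e1]⟩
  by_cases e2 : y = ⟨s((u, !i), (w, k)), huw⟩
  · right; exact ⟨k, by rw [e2]⟩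
  obtain ⟨x1, hx1, hx1'⟩ := hC h1 hy (Ne.symm e1)
  obtain ⟨x2, hx2, hx2'⟩ := hC h2 hy (Ne.symm e2)
  rw [Sym2.mem_iff] at hx1 hx2
  have huv' := Y.ne_of_adj huv
  have huw' := Y.ne_of_adj huw
  rcases hx1 with rfl | rfl
  · rcases hx2 with rfl | rfl
    · exfalso
      have := eq_of_mem y hx1' hx2' rfl
      simp at this
    · right
      refine ⟨!k, ?_⟩
      have hne : ((u, !i) : W × Bool) ≠ (w, !k) := fun h => huw' (congrArg Prod.fst h)
      exact (Sym2.mem_and_mem_iff hne).1 ⟨hx1', hx2'⟩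
  · rcases hx2 with rfl | rfl
    · left
      refine ⟨!j, ?_⟩
      have hne : ((u, i) : W × Bool) ≠ (v, !j) := fun h => huv' (congrArg Prod.fst h)
      refine (Sym2.mem_and_mem_iff hne).1 ⟨by simpa using hx2', hx1'⟩
    · exfalso
      have hne : ((v, !j) : W × Bool) ≠ (w, !k) := fun h => hvw (congrArg Prod.fst h)
      have := (Sym2.mem_and_mem_iff hne).1 ⟨hx1', hx2'⟩
      have h3 := y.2
      rw [this, SimpleGraph.mem_edgeSet] at h3
      exact hY u v w huv huw h3

/-- the shape of a clique: one edge, or two edges with a common end -/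
theorem clique_cases {Y : SimpleGraph W} {C : Set (B Y).edgeSet} (hC : (G Y).IsClique C)
    (p : (B Y).edgeSet) (hp : p ∈ C) {u v : W} {i j : Bool} (e : p.1 = s((u, i), (v, j))) :
    (∀ y ∈ C, ∃ l m, y.1 = s((u, l), (v, m))) ∨
    ∃ (u' v' w' : W) (i' j' k' : Bool) (h1 : Y.Adj u' v') (h2 : Y.Adj u' w'), v' ≠ w' ∧
      (⟨s((u', i'), (v', j')), h1⟩ : (B Y).edgeSet) ∈ C ∧
      (⟨s((u', !i'), (w', k')), h2⟩ : (B Y).edgeSet) ∈ C := by
  obtain ⟨p, hp0⟩ := p
  simp only at e
  subst e
  have huv : Y.Adj u v := hp0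
  by_cases h : ∀ y ∈ C, ∃ l m, y.1 = s((u, l), (v, m))
  · exact Or.inl h
  · right
    push Not at h
    obtain ⟨y, hy, hy2⟩ := h
    have hne : (⟨s((u, i), (v, j)), hp0⟩ : (B Y).edgeSet) ≠ y := by
      rintro rfl
      exact hy2 i j rfl
    obtain ⟨x, hx1, hx2⟩ := hC hp hy hne
    rw [Sym2.mem_iff] at hx1
    obtain ⟨z, hz⟩ := Sym2.mem_iff_exists.1 hx2
    obtain ⟨y, hy0⟩ := y
    simp only at hz hy2
    subst hz
    have hadj : Y.Adj x.1 z.1 := hy0
    rcases hx1 with rfl | rfl
    · refine ⟨u, v, z.1, i, j, z.2, huv, hadj, ?_, hp, hy⟩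
      rintro rfl
      exact hy2 _ _ rfl
    · refine ⟨v, u, z.1, j, i, z.2, huv.symm, hadj, ?_, ?_, hy⟩
      · rintro rfl
        exact hy2 _ _ Sym2.eq_swap
      · have : (⟨s((v, j), (u, i)), huv.symm⟩ : (B Y).edgeSet) = ⟨s((u, i), (v, j)), hp0⟩ :=
          Subtype.ext Sym2.eq_swap
        rw [this]
        exact hp

/-- every maximal clique contains a labelled edge which agrees with a given labelling -/
theorem clique_meets {Y : SimpleGraph W} (hY : ∀ a b c, Y.Adj a b → Y.Adj a c → ¬ Y.Adj b c)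
    (hne : ∃ a b, Y.Adj a b) {C : Set (B Y).edgeSet} (hC : Maximal (G Y).IsClique C)
    (x : W → Bool) : ∃ p ∈ C, ∀ y ∈ p.1, y.2 = x y.1 := by
  classical
  by_contra hcon
  push Not at hcon
  -- a vertex outside `C` cannot be adjacent to all of `C`
  have hmax : ∀ q : (B Y).edgeSet, (∀ y ∈ q.1, y.2 = x y.1) → (∀ y ∈ C, (G Y).Adj q y) →
      False := by
    intro q hq hall
    have hqC : q ∉ C := by
      intro h
      obtain ⟨y, hy1, hy2⟩ := hcon q h
      exact hy2 (hq y hy1)
    refine hqC (hC.2 (y := insert q C) ?_ (Set.subset_insert q C) (Set.mem_insert q C))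
    intro a ha b hb hab
    rcases Set.mem_insert_iff.1 ha with ha | ha
    · rcases Set.mem_insert_iff.1 hb with hb | hb
      · exact absurd (ha.trans hb.symm) hab
      · rw [ha]; exact hall b hb
    · rcases Set.mem_insert_iff.1 hb with hb | hb
      · rw [hb]; exact (hall a ha).symm
      · exact hC.prop ha hb hab
  -- the labelled edge on `u v` which agrees with `x`
  have hcons : ∀ u v : W, ∀ y ∈ (s((u, x u), (v, x v)) : Sym2 (W × Bool)), y.2 = x y.1 := by
    intro u v y hy
    rcases Sym2.mem_iff.1 hy with rfl | rfl <;> rfl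
  have hCne : C.Nonempty := by
    by_contra h
    rw [Set.not_nonempty_iff_eq_empty] at h
    obtain ⟨a, b, hab⟩ := hne
    refine hmax ⟨s((a, x a), (b, x b)), hab⟩ (hcons a b) ?_
    rw [h]
    intro y hy
    exact absurd hy (Set.notMem_empty y)
  obtain ⟨p, hp⟩ := hCne
  obtain ⟨⟨u, i⟩, ⟨v, j⟩, e⟩ : ∃ a b : W × Bool, p.1 = s(a, b) := by
    obtain ⟨p, hp0⟩ := p
    induction p with | h a b => exact ⟨a, b, rfl⟩
  have huv : Y.Adj u v := by
    have := p.2
    rw [e] at this
    exact this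
  rcases clique_cases hC.prop p hp e with hA | ⟨u, v, w, i, j, k, h1, h2, hvw, hm1, hm2⟩
  · refine hmax ⟨s((u, x u), (v, x v)), huv⟩ (hcons u v) ?_
    intro y hy
    obtain ⟨l, m, hlm⟩ := hA y hy
    rw [G_adj]
    by_cases hl : l = x u
    · have hm : m ≠ x v := by
        rintro rfl
        obtain ⟨z, hz1, hz2⟩ := hcon y hy
        rw [hlm, hl] at hz1
        exact hz2 (hcons u v z hz1)
      refine ⟨(v, x v), Sym2.mem_mk_right _ _, ?_⟩
      have : (!x v) = m := by revert hm; cases m <;> cases x v <;> simp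
      rw [hlm]
      simp only
      rw [this]
      exact Sym2.mem_mk_right _ _
    · refine ⟨(u, x u), Sym2.mem_mk_left _ _, ?_⟩
      have : (!x u) = l := by revert hl; cases l <;> cases x u <;> simp
      rw [hlm]
      simp only
      rw [this]
      exact Sym2.mem_mk_left _ _
  · -- by symmetry, `i` agrees with `x`
    have main : ∀ (v w : W) (i j k : Bool) (h1 : Y.Adj u v) (h2 : Y.Adj u w), v ≠ w →
        (⟨s((u, i), (v, j)), h1⟩ : (B Y).edgeSet) ∈ C →
        (⟨s((u, !i), (w, k)), h2⟩ : (B Y).edgeSet) ∈ C → i = x u → False := by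
      intro v w i j k h1 h2 hvw hm1 hm2 hi
      subst hi
      refine hmax ⟨s((u, x u), (v, x v)), h1⟩ (hcons u v) ?_
      intro y hy
      rw [G_adj]
      rcases clique_struct hY hC.prop h1 h2 hvw hm1 hm2 y hy with ⟨m, hm⟩ | ⟨m, hm⟩
      · have hm' : m ≠ x v := by
          rintro rfl
          obtain ⟨z, hz1, hz2⟩ := hcon y hy
          rw [hm] at hz1
          exact hz2 (hcons u v z hz1)
        refine ⟨(v, x v), Sym2.mem_mk_right _ _, ?_⟩
        have : (!x v) = m := by revert hm'; cases m <;> cases x v <;> simp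
        rw [hm]
        simp only
        rw [this]
        exact Sym2.mem_mk_right _ _
      · refine ⟨(u, x u), Sym2.mem_mk_left _ _, ?_⟩
        rw [hm]
        exact Sym2.mem_mk_left _ _
    by_cases hi : i = x u
    · exact main v w i j k h1 h2 hvw hm1 hm2 hi
    · refine main w v (!i) k j h2 h1 hvw.symm hm2 (by simpa using hm1) ?_
      revert hi; cases i <;> cases x u <;> simp

/-- a clique has at most four vertices -/
theorem clique_card {Y : SimpleGraph W} (hY : ∀ a b c, Y.Adj a b → Y.Adj a c → ¬ Y.Adj b c)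
    (C : Finset (B Y).edgeSet) (hC : (G Y).IsClique (C : Set (B Y).edgeSet)) : C.card ≤ 4 := by
  classical
  rcases C.eq_empty_or_nonempty with rfl | ⟨p, hp⟩
  · simp
  obtain ⟨⟨u, i⟩, ⟨v, j⟩, e⟩ : ∃ a b : W × Bool, p.1 = s(a, b) := by
    obtain ⟨p, hp0⟩ := p
    induction p with | h a b => exact ⟨a, b, rfl⟩
  have hcard : C.card = (C.image Subtype.val).card :=
    (Finset.card_image_of_injective _ Subtype.val_injective).symm
  rw [hcard]
  rcases clique_cases hC p hp e with hA | ⟨u, v, w, i, j, k, h1, h2, hvw, hm1, hm2⟩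
  · have : C.image Subtype.val ⊆ {s((u, false), (v, false)), s((u, false), (v, true)),
        s((u, true), (v, false)), s((u, true), (v, true))} := by
      intro z hz
      obtain ⟨y, hy, rfl⟩ := Finset.mem_image.1 hz
      obtain ⟨l, m, h⟩ := hA y hy
      rw [h]
      cases l <;> cases m <;> simp
    exact (Finset.card_le_card this).trans Finset.card_le_four
  · have : C.image Subtype.val ⊆ {s((u, i), (v, false)), s((u, i), (v, true)),
        s((u, !i), (w, false)), s((u, !i), (w, true))} := by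
      intro z hz
      obtain ⟨y, hy, rfl⟩ := Finset.mem_image.1 hz
      rcases clique_struct hY hC h1 h2 hvw hm1 hm2 y hy with ⟨m, hm⟩ | ⟨m, hm⟩ <;> rw [hm] <;>
        cases m <;> simp
    exact (Finset.card_le_card this).trans Finset.card_le_four

/-- the four labellings of one edge form a clique -/
theorem exists_clique {Y : SimpleGraph W} {u v : W} (h : Y.Adj u v) :
    ∃ C : Finset (B Y).edgeSet, (G Y).IsNClique 4 C := by
  classical
  have huv := Y.ne_of_adj h
  let f : Bool × Bool → (B Y).edgeSet := fun a => ⟨s((u, a.1), (v, a.2)), h⟩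
  have hf : ∀ a b, a ≠ b → (G Y).Adj (f a) (f b) := by
    intro a b hab
    rw [G_adj]
    by_cases h1 : a.1 = b.1
    · have h2 : a.2 ≠ b.2 := fun h2 => hab (Prod.ext h1 h2)
      refine ⟨(v, a.2), Sym2.mem_mk_right _ _, ?_⟩
      have : (!a.2) = b.2 := by revert h2; cases a.2 <;> cases b.2 <;> simp
      show (v, !a.2) ∈ s((u, b.1), (v, b.2))
      rw [this]
      exact Sym2.mem_mk_right _ _
    · refine ⟨(u, a.1), Sym2.mem_mk_left _ _, ?_⟩
      have : (!a.1) = b.1 := by revert h1; cases a.1 <;> cases b.1 <;> simp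
      show (u, !a.1) ∈ s((u, b.1), (v, b.2))
      rw [this]
      exact Sym2.mem_mk_left _ _
  have hinj : Function.Injective f := by
    intro a b hab
    by_contra hne
    exact (hf a b hne).ne hab
  refine ⟨Finset.univ.image f, ?_, ?_⟩
  · intro a ha b hb hab
    rw [Finset.coe_image, Finset.coe_univ, Set.image_univ, Set.mem_range] at ha hb
    obtain ⟨a, rfl⟩ := ha
    obtain ⟨b, rfl⟩ := hb
    exact hf a b (fun h => hab (by rw [h]))
  · rw [Finset.card_image_of_injective _ hinj]
    rfl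

theorem cliqueNum_eq [Finite W] {Y : SimpleGraph W}
    (hY : ∀ a b c, Y.Adj a b → Y.Adj a c → ¬ Y.Adj b c) (hne : ∃ a b, Y.Adj a b) :
    (G Y).cliqueNum = 4 := by
  apply le_antisymm
  · obtain ⟨C, hC⟩ := (G Y).exists_isNClique_cliqueNum
    rw [← hC.card_eq]
    exact clique_card hY C hC.isClique
  · obtain ⟨a, b, hab⟩ := hne
    obtain ⟨C, hC⟩ := exists_clique hab
    rw [← hC.card_eq]
    exact hC.isClique.card_le_cliqueNum

/-- a colouring of `G Y` with `N` colours gives one of `Y` with `2 ^ N` colours -/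
theorem colorable {Y : SimpleGraph W} {N : ℕ} (h : (G Y).Colorable N) : Y.Colorable (2 ^ N) := by
  classical
  obtain ⟨c⟩ := h
  let X : W → (Fin N → Bool) := fun u n => decide (∃ p, c p = n ∧ (u, true) ∈ p.1)
  have hX : ∀ u v, Y.Adj u v → X u ≠ X v := by
    intro u v huv heq
    let p : (B Y).edgeSet := ⟨s((u, true), (v, false)), huv⟩
    have h1 := congrFun heq (c p)
    have h2 : X u (c p) = true := by
      simp only [X, decide_eq_true_eq]
      exact ⟨p, rfl, Sym2.mem_mk_left _ _⟩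
    rw [h2] at h1
    have h3 := h1.symm
    simp only [X, decide_eq_true_eq] at h3
    obtain ⟨q, hq1, hq2⟩ := h3
    have hadj : (G Y).Adj p q := ⟨(v, false), Sym2.mem_mk_right _ _, hq2⟩
    exact c.valid hadj hq1.symm
  have C : Y.Coloring (Fin N → Bool) := SimpleGraph.Coloring.mk X (fun {u v} h => hX u v h)
  have := C.colorable
  simpa using this

end Pool.Agent.W2helper87.CIS
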